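import Pool.Agent.Q66.Ab11

set_option autoImplicit false

namespace Pool.Agent.Results.MP_aaf517_an.EntropyContinuous

open Q66.Ab

/-- The topological entropy `H a b` of the `(a,b)`-continued fraction map exists for every
`(a,b) ∈ 𝒫` (as the growth rate of the number of maximal intervals of monotonicity of the iterates
of the interval map, and also as the growth rate of the number of maximal intervals of continuity
and monotonicity; for both readings `e = ±1` of the value `∞` at the point `0`), and `H` is
continuous on `𝒫`. -/
theorem result :
    ∃ H : ℝ → ℝ → ℝ,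
      (∀ e a b : ℝ, (e = 1 ∨ e = -1) → InP a b →
        HasTopEntropy (ftil e a b) (H a b) ∧ HasContLapEntropy e a b (H a b)) ∧
      ContinuousOn (fun p : ℝ × ℝ => H p.1 p.2) {p : ℝ × ℝ | InP p.1 p.2} := by
  refine ⟨HH, fun e a b he h => ?_, HH_continuousOn⟩
  rw [HH_eq h]
  exact ⟨hasTopEntropy h he, hasContLapEntropy h⟩

end Pool.Agent.Results.MP_aaf517_an.EntropyContinuous
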